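import Pool.Agent.MP_94d996_lc.H23.Final

set_option autoImplicit false

namespace Pool.Agent.Results.MP_94d996_lc.EroderUndecidable

open Pool.Agent.MP_94d996_lc.H23

/-- Already for `m = 1` and one fixed choice of `d`, `k`, `n` and of a monotonic transition
function, no algorithm decides from the neighbour vectors whether the system is an eroder. -/
theorem result :
    ∃ (d k n : ℕ) (tr : (Fin n → Fin (k + 1)) → Fin (k + 1)), 1 ≤ d ∧ 1 ≤ k ∧ Monotone tr ∧
      ¬ ComputablePred (fun v : Fin n → Fin d → ℤ => IsEroder v tr) :=
  eroder_undecidable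

end Pool.Agent.Results.MP_94d996_lc.EroderUndecidable
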